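import Pool.Agent.Y94.EQ.Emp
import Pool.Agent.W401.SSS.Final

/-!
# Transfer between measures on the complex plane and on the line
-/

set_option autoImplicit false

open MeasureTheory Polynomial

namespace Pool.Agent.Y94.EQ

open Pool.Agent.W401.SSS

theorem logNonneg_map_re {ν : Measure ℂ} (h : CompactHalfLine ν) {Q : ℤ[X]}
    (ha : ν {z : ℂ | Polynomial.aeval z Q = 0} = 0 ∧
      Integrable (fun z : ℂ => Real.log ‖Polynomial.aeval z Q‖) ν ∧
      0 ≤ ∫ z : ℂ, Real.log ‖Polynomial.aeval z Q‖ ∂ν) :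
    LogNonneg (ν.map Complex.re) Q := by
  obtain ⟨h1, h2, h3⟩ := ha
  have e : (fun x : ℝ => Real.log ‖Polynomial.aeval (x : ℂ) Q‖) = fun x => Real.log |ev Q x| := by
    funext x
    rw [← ev_cast]; simp
  rw [← map_re_map h] at h1 h2 h3
  rw [measurableEmbedding_ofReal.map_apply] at h1
  rw [measurableEmbedding_ofReal.integrable_map_iff] at h2
  rw [measurableEmbedding_ofReal.integral_map] at h3
  refine ⟨?_, ?_, ?_⟩
  · refine measure_mono_null ?_ h1
    intro x hx
    have hx' : ev Q x = 0 := hx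
    show Polynomial.aeval (x : ℂ) Q = 0
    rw [← ev_cast, hx']; simp
  · simpa only [Function.comp_def, e] using h2
  · rw [show (fun x : ℝ => Real.log ‖Polynomial.aeval ((fun x : ℝ => (x : ℂ)) x) Q‖)
      = fun x => Real.log |ev Q x| from e] at h3
    exact h3

theorem mean_map_re {ν : Measure ℂ} (h : CompactHalfLine ν) :
    mean (ν.map Complex.re) = (∫ z : ℂ, z ∂ν).re := by
  have := integral_map_ofReal (ν.map Complex.re)
  rw [map_re_map h] at this
  rw [this, Complex.ofReal_re]

theorem integral_map_re (ν : Measure ℂ) {f : ℝ → ℝ} (hf : Continuous f) :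
    ∫ x, f x ∂(ν.map Complex.re) = ∫ z : ℂ, f z.re ∂ν :=
  integral_map Complex.measurable_re.aemeasurable hf.aestronglyMeasurable

theorem integral_map_cast (μ : Measure ℝ) (f : ℝ → ℝ) :
    ∫ z : ℂ, f z.re ∂(μ.map (fun x : ℝ => (x : ℂ))) = ∫ x, f x ∂μ := by
  rw [measurableEmbedding_ofReal.integral_map]
  simp

end Pool.Agent.Y94.EQ
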