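import Pool.Agent.Y94.EQ.Fin

/-!
# The mean traces are dense above the constant
-/

set_option autoImplicit false

open MeasureTheory Polynomial

namespace Pool.Agent.Y94.EQ

open Pool.Agent.W401.SSS

theorem dense_above {y : ℝ} (hy : lamSSS < y) {η : ℝ} (hη : 0 < η) :
    ∃ p : ℤ[X], p.Monic ∧ Irreducible p ∧ 2 ≤ p.natDegree ∧ TotPos p ∧ |mtr p - y| < η := by
  obtain ⟨-, ⟨μ, h1, h2, h3⟩, h4⟩ := facts
  obtain ⟨-, hE, -⟩ := h4 1000 μ h1 h2 h3
  obtain ⟨ν, c, hc, g1, g2, g3, g4⟩ := fNICE 1000 ((y - lamSSS) / 2) μ (by norm_num) h1 h2 hE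
    (by linarith)
  have hm0 : 0 ≤ mean ν := SMITHaux.mean_nonneg g1
  have hmy : mean ν < y := by
    rw [h3] at g4
    linarith
  have hy0 : 0 < y := lt_of_le_of_lt hm0 hmy
  set B : ℝ := max 1001 (2 * y) with hB
  have hB1 : 1001 ≤ B := le_max_left _ _
  have hB2 : 2 * y ≤ B := le_max_right _ _
  have hon : On B ν := g1.mono (by linarith)
  set κ : ℝ := (y - mean ν) / (B + 20 - y) with hκ
  have hLy : 0 < B + 20 - y := by linarith
  have hκ0 : 0 < κ := div_pos (by linarith) hLy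
  have hκ1 : κ ≤ 1 := by
    rw [hκ, div_le_one hLy]
    linarith
  have hκ2 : κ * (B + 20 - y) = y - mean ν := by
    rw [hκ, div_mul_cancel₀ _ hLy.ne']
  obtain ⟨n0, hn0⟩ := fSMC B c ν (by linarith) hc hon g2 g3 κ hκ0
  obtain ⟨n1, hn1⟩ := exists_nat_gt ((2 + (B + 20 - y)) / η)
  set n : ℕ := max (max n0 n1) 2 with hn
  have hnn0 : n0 ≤ n := le_trans (le_max_left _ _) (le_max_left _ _)
  have hnn1 : n1 ≤ n := le_trans (le_max_right _ _) (le_max_left _ _)
  have hn2 : 2 ≤ n := le_max_right _ _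
  have hnpos : (0 : ℝ) < n := by
    have : 0 < n := by omega
    exact_mod_cast this
  have hn1' : (2 + (B + 20 - y)) / η < n := lt_of_lt_of_le hn1 (by exact_mod_cast hnn1)
  rw [div_lt_iff₀ hη] at hn1'
  set m : ℕ := ⌈κ * n⌉₊ with hm
  have hm1 : κ * n ≤ m := Nat.le_ceil _
  have hm2 : (m : ℝ) < κ * n + 1 := Nat.ceil_lt_add_one (by positivity)
  have hm3 : 0 < m := Nat.ceil_pos.2 (by positivity)
  have hm4 : m ≤ n + 1 := by
    have : (m : ℝ) ≤ (n + 1 : ℕ) := by
      push_cast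
      nlinarith
    exact_mod_cast this
  obtain ⟨p, hp1, hp2, hp3, hp4, hp5⟩ := hn0 n m hnn0 hm1 hm3 hm4
  refine ⟨p, hp1, hp2, by omega, hp4, ?_⟩
  have hmpos : (0 : ℝ) < m := by exact_mod_cast hm3
  have hnm : (0 : ℝ) < (n : ℝ) + m := by positivity
  have e1 : mtr p = -(p.coeff (n + m - 1) : ℝ) / ((n : ℝ) + m) := by
    unfold mtr
    rw [SMITHaux.rsum_re p hp1 (by omega), hp3]
    push_cast
    ring
  have e2 : mtr p - y = (-(p.coeff (n + m - 1) : ℝ) - y * ((n : ℝ) + m)) / ((n : ℝ) + m) := by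
    rw [e1]
    field_simp
  rw [e2, abs_div, abs_of_pos hnm, div_lt_iff₀ hnm]
  have e3 : (n : ℝ) * mean ν + m * (B + 20) - y * ((n : ℝ) + m) =
      (B + 20 - y) * (m - κ * n) := by
    have : (B + 20 - y) * (m - κ * n) = (B + 20 - y) * m - κ * (B + 20 - y) * n := by ring
    rw [this, hκ2]
    ring
  have e4 : 0 ≤ (B + 20 - y) * (m - κ * n) := mul_nonneg hLy.le (by linarith)
  have e5 : (B + 20 - y) * (m - κ * n) ≤ (B + 20 - y) * 1 :=
    mul_le_mul_of_nonneg_left (by linarith) hLy.le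
  have e6 : η * n ≤ η * ((n : ℝ) + m) := mul_le_mul_of_nonneg_left (by linarith) hη.le
  rw [abs_le] at hp5
  rw [abs_lt]
  constructor <;> nlinarith [hp5.1, hp5.2]

/-- A totally positive polynomial of degree at least two has strictly positive roots. -/
theorem pos_roots {p : ℤ[X]} (h1 : p.Monic) (h2 : Irreducible p) (h3 : 2 ≤ p.natDegree)
    (h4 : TotPos p) {z : ℂ} (hz : z ∈ rts p) : z.im = 0 ∧ 0 < z.re := by
  refine ⟨(h4 z hz).1, lt_of_le_of_ne (h4 z hz).2 fun h => ?_⟩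
  have hz0 : z = 0 := by
    apply Complex.ext
    · simpa using h.symm
    · simpa using (h4 z hz).1
  have hX : Adm (X : ℤ[X]) := ⟨irreducible_X, by simp, by simp⟩
  have hne : p ≠ X := by
    intro hc
    rw [hc, natDegree_X] at h3
    omega
  refine Adm.disjoint (adm_of h1 h2) hX hne hz ?_
  rw [mem_rts X_ne_zero, hz0]
  simp

/-- The set of the mean traces of the algebraic integers all of whose conjugates are real and
positive. -/
def meanTraces : Set ℝ :=
  {t | ∃ α : ℂ, IsIntegral ℤ α ∧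
    (∀ β : ℂ, Polynomial.aeval β (minpoly ℤ α) = 0 → β.im = 0 ∧ 0 < β.re) ∧
    t = mtr (minpoly ℤ α)}

theorem mem_meanTraces {p : ℤ[X]} (h1 : p.Monic) (h2 : Irreducible p) (h3 : 2 ≤ p.natDegree)
    (h4 : TotPos p) : mtr p ∈ meanTraces := by
  obtain ⟨α, hα⟩ := LIMIaux.exists_tp p h1 h2 (by omega) h4
  refine ⟨α.1, α.2.1, fun β hβ => ?_, by rw [hα]⟩
  rw [hα] at hβ
  exact pos_roots h1 h2 h3 h4 ((mem_rts h1.ne_zero β).2 hβ)

theorem limit_points (x : ℝ) :
    (∀ ε : ℝ, 0 < ε → (meanTraces ∩ Set.Ioo (x - ε) (x + ε)).Infinite) ↔ lamSSS ≤ x := by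
  constructor
  · intro h
    by_contra hx
    rw [not_le] at hx
    obtain ⟨F, hF⟩ := fSMYTH lamSSS lam_nonneg lam_le_six
      (fun η hη => fDUAL 2000 lamSSS η (by norm_num) hη fun ν h1 h2 => facts.1 2000 ν h1 h2)
      ((lamSSS - x) / 2) (by linarith)
    refine h ((lamSSS - x) / 2) (by linarith) ?_
    refine (F.finite_toSet.image mtr).subset ?_
    rintro t ⟨⟨α, h1, h2, rfl⟩, h3⟩
    refine ⟨minpoly ℤ α, ?_, rfl⟩
    by_contra hcon
    have h4 := hF _ (minpoly.monic h1) (minpoly.irreducible h1) (minpoly.natDegree_pos h1)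
      (fun z hz => by
        have := h2 z ((mem_rts (minpoly.monic h1).ne_zero z).1 hz)
        exact ⟨this.1, this.2.le⟩) hcon
    have h5 := h3.2
    linarith
  · intro hx ε hε hfin
    have key : ∀ y, x < y → ∃ t ∈ meanTraces, x < t ∧ t < y := by
      intro y hy
      obtain ⟨p, p1, p2, p3, p4, p5⟩ := dense_above (y := (x + y) / 2) (by linarith)
        (show 0 < (y - x) / 2 by linarith)
      refine ⟨mtr p, mem_meanTraces p1 p2 p3 p4, ?_⟩
      rw [abs_lt] at p5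
      constructor <;> linarith [p5.1, p5.2]
    set S := meanTraces ∩ Set.Ioo x (x + ε) with hS
    have hSf : S.Finite := hfin.subset fun t ht => ⟨ht.1, by
      have := ht.2.1
      exact ⟨by linarith, ht.2.2⟩⟩
    have hSn : S.Nonempty := by
      obtain ⟨t, h1, h2, h3⟩ := key (x + ε) (by linarith)
      exact ⟨t, h1, h2, h3⟩
    obtain ⟨m, hm, hmin⟩ := Set.exists_min_image S id hSf hSn
    obtain ⟨t, h1, h2, h3⟩ := key m hm.2.1
    have := hmin t ⟨h1, h2, h3.trans hm.2.2⟩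
    simp only [id] at this
    linarith

end Pool.Agent.Y94.EQ
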