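import Pool.Agent.Y94.EQ.Ene

/-!
# The discriminant and the small energy of conjugates
-/

set_option autoImplicit false

open MeasureTheory Polynomial

namespace Pool.Agent.Y94.EQ

open Pool.Agent.W401.SSS

theorem log_deriv {Q : ℤ[X]} (hQ : Adm Q) (hm : Q.Monic) {α : ℂ} (hα : α ∈ rts Q) :
    aeval α (derivative Q) ≠ 0 ∧
      Real.log ‖aeval α (derivative Q)‖ = rsum Q (fun β => Real.log ‖α - β‖) := by
  classical
  have hs := (IsAlgClosed.splits (Q.map (Int.castRingHom ℂ))).eq_prod_roots
  have h1 : aeval α (derivative Q) = (((rts Q).erase α).map (fun β => α - β)).prod := by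
    rw [RESaux.aeval_eq_eval, ← derivative_map]
    conv_lhs => rw [hs]
    rw [derivative_C_mul, eval_mul, eval_C, leadingCoeff_map', hm.leadingCoeff]
    rw [Int.cast_one, one_mul]
    exact eval_multiset_prod_X_sub_C_derivative hα
  have hne : ∀ β ∈ (rts Q).erase α, ‖α - β‖ ≠ 0 := by
    intro β hβ h0
    rw [norm_eq_zero, sub_eq_zero] at h0
    subst h0
    exact (hQ.nodup.mem_erase_iff.1 hβ).1 rfl
  have h2 : ∀ s : Multiset ℂ, ‖(s.map (fun β => α - β)).prod‖ =
      (s.map (fun β => ‖α - β‖)).prod := by
    intro s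
    induction s using Multiset.induction_on with
    | empty => simp
    | cons a s ih => simp [ih]
  have h3 := log_prod_map ((rts Q).erase α) (fun β => ‖α - β‖) hne
  have h4 : ‖aeval α (derivative Q)‖ = (((rts Q).erase α).map (fun β => ‖α - β‖)).prod := by
    rw [h1, h2]
  constructor
  · rw [← norm_ne_zero_iff, h4]
    exact h3.2
  · rw [h4, h3.1]
    unfold rsum
    conv_rhs => rw [← Multiset.cons_erase hα]
    simp

/-- The logarithm of the absolute value of the discriminant is the sum over all pairs of roots. -/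
theorem log_discr {Q : ℤ[X]} (hQ : Adm Q) (hm : Q.Monic) :
    Q.discr ≠ 0 ∧ Real.log |(Q.discr : ℝ)| =
      rsum Q (fun α => rsum Q (fun β => Real.log ‖α - β‖)) := by
  have hd : 0 < Q.degree := natDegree_pos_iff_degree_pos.1 hQ.2.1
  have h0 := resultant_deriv hd
  have h1 : (((-1 : ℤ) ^ (Q.natDegree * (Q.natDegree - 1) / 2) * Q.discr : ℤ) : ℂ) =
      ((rts Q).map (fun α => aeval α (derivative Q))).prod := by
    rw [hm.leadingCoeff, mul_one] at h0
    rw [← h0]
    have e1 := resultant_map_map Q (derivative Q) Q.natDegree (Q.natDegree - 1)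
      (Int.castRingHom ℂ)
    have e2 := resultant_eq_prod_eval (Q.map (Int.castRingHom ℂ))
      ((derivative Q).map (Int.castRingHom ℂ)) (Q.natDegree - 1)
      ((natDegree_map_le).trans (natDegree_derivative_le Q)) (IsAlgClosed.splits _)
    rw [RESaux.natDegree_map', e1, leadingCoeff_map', hm.leadingCoeff] at e2
    have e3 : (Int.castRingHom ℂ) (resultant Q (derivative Q) Q.natDegree (Q.natDegree - 1)) =
      ((resultant Q (derivative Q) Q.natDegree (Q.natDegree - 1) : ℤ) : ℂ) := by simp
    rw [← e3, e2, Int.cast_one, one_pow, one_mul]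
    congr 1
    refine Multiset.map_congr rfl fun α _ => ?_
    rw [RESaux.aeval_eq_eval]
  have h2 : ∀ s : Multiset ℂ, ‖(s.map (fun α => aeval α (derivative Q))).prod‖ =
      (s.map (fun α => ‖aeval α (derivative Q)‖)).prod := by
    intro s
    induction s using Multiset.induction_on with
    | empty => simp
    | cons a s ih => simp [ih]
  have h3 := log_prod_map (rts Q) (fun α => ‖aeval α (derivative Q)‖)
    (fun α hα => norm_ne_zero_iff.2 (log_deriv hQ hm hα).1)
  have h4 : |(Q.discr : ℝ)| = ((rts Q).map (fun α => ‖aeval α (derivative Q)‖)).prod := by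
    have e := congrArg norm h1
    rw [h2, Complex.norm_intCast] at e
    rw [← e]
    push_cast
    rw [abs_mul, abs_pow, abs_neg, abs_one, one_pow, one_mul]
  constructor
  · intro h
    rw [h] at h4
    simp only [Int.cast_zero, abs_zero] at h4
    exact h3.2 h4.symm
  · rw [h4, h3.1]
    show rsum Q (fun α => Real.log ‖aeval α (derivative Q)‖) = _
    exact rsum_congr _ _ _ fun α hα => (log_deriv hQ hm hα).2

/-- The energy of the conjugates, without the diagonal, is at most the truncated energy plus a
diagonal term. -/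
theorem energy_emp {p : ℤ[X]} (hp : Adm p) (hr : ∀ z ∈ rts p, z.im = 0) (M : ℕ) :
    rsum p (fun α => rsum p (fun β => Real.log ‖α - β‖)) ≤
      (p.natDegree : ℝ) ^ 2 * EM M (emp p) + M * p.natDegree := by
  classical
  have hn : (p.natDegree : ℝ) ≠ 0 := by
    have := hp.2.1
    exact_mod_cast this.ne'
  rw [EM_emp hp, mul_div_cancel₀ _ (pow_ne_zero 2 hn)]
  have h1 : ∀ α ∈ rts p, rsum p (fun β => Real.log ‖α - β‖) ≤
      rsum p (fun β => kM M α.re β.re) + M := by
    intro α hα
    have e : (rts p).toFinset.sum (fun β => if β = α then (M : ℝ) else 0) = M := by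
      rw [Finset.sum_ite_eq' (rts p).toFinset α (fun _ => (M : ℝ)),
        if_pos (Multiset.mem_toFinset.2 hα)]
    rw [rsum_eq hp, rsum_eq hp, ← e, ← Finset.sum_add_distrib]
    refine Finset.sum_le_sum fun β hβ => ?_
    by_cases hb : β = α
    · rw [if_pos hb, hb, sub_self, norm_zero, Real.log_zero]
      have := kM_ge M α.re α.re
      linarith
    · rw [if_neg hb, add_zero]
      have hne : α.re ≠ β.re := by
        intro h
        apply hb
        apply Complex.ext
        · exact h.symm
        · rw [hr α hα, hr β (Multiset.mem_toFinset.1 hβ)]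
      have hnorm : ‖α - β‖ = |α.re - β.re| := by
        have : α - β = ((α.re - β.re : ℝ) : ℂ) := by
          apply Complex.ext
          · simp
          · simp [hr α hα, hr β (Multiset.mem_toFinset.1 hβ)]
        rw [this, Complex.norm_real, Real.norm_eq_abs]
      rw [hnorm]
      exact log_le_kM M hne
  rw [rsum_eq hp, rsum_eq hp]
  have h2 : ∑ α ∈ (rts p).toFinset, rsum p (fun β => Real.log ‖α - β‖) ≤
      ∑ α ∈ (rts p).toFinset, (rsum p (fun β => kM M α.re β.re) + M) :=
    Finset.sum_le_sum fun α hα => h1 α (Multiset.mem_toFinset.1 hα)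
  rw [Finset.sum_add_distrib, Finset.sum_const, card_rts hp, nsmul_eq_mul] at h2
  linarith

end Pool.Agent.Y94.EQ
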