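import Pool.Agent.Y94.EQ.Uni

/-!
# The uniform measure on the conjugates of a totally positive algebraic integer
-/

set_option autoImplicit false

open MeasureTheory Polynomial
open scoped ENNReal

namespace Pool.Agent.Y94.EQ

open Pool.Agent.W401.SSS Pool.Agent.W401.SSS.DUALaux

open Classical in
/-- The uniform probability measure on the (real parts of the) roots of `p`. -/
noncomputable def emp (p : ℤ[X]) : Measure ℝ :=
  (p.natDegree : ℝ≥0∞)⁻¹ • ∑ z ∈ (rts p).toFinset, Measure.dirac z.re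

variable {p : ℤ[X]}

theorem card_rts (hp : Adm p) [DecidableEq ℂ] : (rts p).toFinset.card = p.natDegree := by
  rw [Multiset.toFinset_card_of_nodup hp.nodup, rts_card]

theorem rsum_eq (hp : Adm p) [DecidableEq ℂ] (f : ℂ → ℝ) :
    rsum p f = ∑ z ∈ (rts p).toFinset, f z := by
  unfold rsum
  rw [Finset.sum_multiset_map_count]
  refine Finset.sum_congr rfl fun z hz => ?_
  rw [Multiset.count_eq_one_of_mem hp.nodup (Multiset.mem_toFinset.1 hz), one_smul]

theorem integrable_dirac' (f : ℝ → ℝ) (a : ℝ) : Integrable f (Measure.dirac a) :=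
  (integrable_const (f a)).congr (by
    rw [Filter.EventuallyEq, ae_dirac_eq]
    simp)

theorem integrable_emp (hp : Adm p) (f : ℝ → ℝ) : Integrable f (emp p) := by
  unfold emp
  refine Integrable.smul_measure ?_ ?_
  · rw [integrable_finsetSum_measure]
    exact fun z _ => integrable_dirac' f z.re
  · rw [ENNReal.inv_ne_top]
    have := hp.2.1
    exact_mod_cast this.ne'

theorem integral_emp (hp : Adm p) (f : ℝ → ℝ) :
    ∫ x, f x ∂(emp p) = rsum p (fun z => f z.re) / p.natDegree := by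
  classical
  unfold emp
  rw [integral_smul_measure, integral_finsetSum_measure fun z _ => integrable_dirac' f z.re,
    rsum_eq hp]
  simp only [integral_dirac]
  rw [ENNReal.toReal_inv, ENNReal.toReal_natCast, smul_eq_mul, div_eq_inv_mul]

theorem emp_null (hp : Adm p) {s : Set ℝ} (hs : MeasurableSet s) (h : ∀ z ∈ rts p, z.re ∉ s) :
    emp p s = 0 := by
  classical
  unfold emp
  rw [Measure.smul_apply, Measure.finsetSum_apply]
  rw [Finset.sum_eq_zero, smul_zero]
  intro z hz
  rw [Measure.dirac_apply' _ hs]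
  exact Set.indicator_of_notMem (h z (Multiset.mem_toFinset.1 (by convert hz))) _

theorem isProb_emp (hp : Adm p) : IsProbabilityMeasure (emp p) := by
  classical
  constructor
  unfold emp
  rw [Measure.smul_apply, Measure.finsetSum_apply]
  simp only [measure_univ, Finset.sum_const, smul_eq_mul, nsmul_eq_mul, mul_one]
  have h1 : ((rts p).toFinset.card : ℝ≥0∞) = p.natDegree := by
    rw [card_rts hp]
  have h0 : (p.natDegree : ℝ≥0∞) ≠ 0 := by
    have := hp.2.1
    exact_mod_cast this.ne'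
  convert ENNReal.inv_mul_cancel h0 (ENNReal.natCast_ne_top _) using 2

theorem on_emp (hp : Adm p) (ht : TotPos p) : ∃ B : ℝ, On B (emp p) := by
  classical
  obtain ⟨B, hB⟩ : ∃ B : ℝ, ∀ z ∈ rts p, z.re ≤ B := by
    refine ⟨∑ z ∈ (rts p).toFinset, z.re, fun z hz => ?_⟩
    exact Finset.single_le_sum (f := fun z : ℂ => z.re)
      (fun w hw => (ht w (Multiset.mem_toFinset.1 hw)).2) (Multiset.mem_toFinset.2 hz)
  refine ⟨B, isProb_emp hp, emp_null hp measurableSet_Icc.compl ?_⟩
  intro z hz h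
  exact h ⟨(ht z hz).2, hB z hz⟩

theorem logNonneg_emp (hp : Adm p) (hm : p.Monic) (ht : TotPos p) {Q : ℤ[X]} (hQ : Adm Q)
    (hne : p ≠ Q) : LogNonneg (emp p) Q := by
  have hre : ∀ β ∈ rts p, β = ((β.re : ℝ) : ℂ) := by
    intro β hβ
    apply Complex.ext
    · simp
    · simp [(ht β hβ).1]
  have hne' : ∀ β ∈ rts p, Polynomial.aeval β Q ≠ 0 := by
    intro β hβ h
    exact Adm.disjoint hp hQ hne hβ ((mem_rts hQ.ne_zero β).2 h)
  have habs : ∀ β ∈ rts p, |ev Q β.re| = ‖Polynomial.aeval β Q‖ := by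
    intro β hβ
    conv_rhs => rw [hre β hβ, ← ev_cast]
    simp
  refine ⟨?_, integrable_emp hp _, ?_⟩
  · refine emp_null hp (finite_roots hQ.ne_zero).measurableSet ?_
    intro z hz h
    have h1 := habs z hz
    have h2 : ev Q z.re = 0 := h
    rw [h2, abs_zero] at h1
    exact hne' z hz (norm_eq_zero.1 h1.symm)
  · rw [integral_emp hp]
    refine div_nonneg ?_ (Nat.cast_nonneg _)
    have h1 := SMYTHaux.log_sum_nonneg p Q hm hne'
    rw [rsum_congr p (fun z => Real.log |ev Q z.re|)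
      (fun β => Real.log ‖Polynomial.aeval β Q‖) fun β hβ => by simp only [habs β hβ]]
    exact h1

theorem mean_emp (hp : Adm p) : mean (emp p) = mtr p := by
  unfold mean mtr
  exact integral_emp hp fun x => x

/-- Version of `uni` for measures and for totally positive algebraic integers. -/
theorem uni_emp {μ : Measure ℝ} (hμ : On 1000 μ) (hA : Arith μ) (hm : mean μ = lamSSS)
    {f : ℝ → ℝ} (hf : Continuous f) {C : ℝ} (hC : ∀ x, 0 ≤ x → |f x| ≤ C * (1 + x))
    {ε : ℝ} (hε : 0 < ε) :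
    ∃ (F : Finset ℤ[X]) (δ : ℝ), 0 < δ ∧ (∀ Q ∈ F, Adm Q) ∧
      (∀ (B : ℝ) (ν : Measure ℝ), On B ν → (∀ Q ∈ F, LogNonneg ν Q) → mean ν ≤ lamSSS + δ →
        |∫ x, f x ∂ν - ∫ x, f x ∂μ| ≤ ε) ∧
      ∀ p : ℤ[X], p.Monic → Irreducible p → TotPos p → p ∉ F → mtr p ≤ lamSSS + δ →
        |rsum p (fun z => f z.re) / p.natDegree - ∫ x, f x ∂μ| ≤ ε := by
  obtain ⟨F, δ, h1, h2, h3⟩ := uni hμ hA hm hf hC hε
  refine ⟨F, δ, h1, h2, h3, ?_⟩
  intro p hpm hpi hpt hpF hmt
  have hd : 0 < p.natDegree := by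
    rcases Nat.eq_zero_or_pos p.natDegree with h | h
    · exfalso
      have := hpm.natDegree_eq_zero.1 h
      rw [this] at hpi
      exact not_irreducible_one hpi
    · exact h
  have hp : Adm p := ⟨hpi, hd, by rw [hpm.leadingCoeff]; exact one_pos⟩
  obtain ⟨B, hB⟩ := on_emp hp hpt
  have := h3 B (emp p) hB (fun Q hQ => logNonneg_emp hp hpm hpt (h2 Q hQ)
    (fun h => hpF (h ▸ hQ))) (by rw [mean_emp hp]; exact hmt)
  rwa [integral_emp hp] at this

end Pool.Agent.Y94.EQ
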