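import Pool.Agent.Y94.EQ.Ker

/-!
# The energy is small near the minimum
-/

set_option autoImplicit false

open MeasureTheory Polynomial Filter
open scoped Topology

namespace Pool.Agent.Y94.EQ

open Pool.Agent.W401.SSS Pool.Agent.W401.SSS.DUALaux

theorem ae_prod {B : ℝ} {ν : Measure ℝ} (hν : On B ν) :
    ∀ᵐ p : ℝ × ℝ ∂(ν.prod ν), p.1 ∈ Set.Icc 0 B ∧ p.2 ∈ Set.Icc 0 B := by
  have := hν.1
  have h1 : ∀ᵐ p : ℝ × ℝ ∂(ν.prod ν), p.1 ∈ Set.Icc 0 B :=
    Measure.quasiMeasurePreserving_fst.ae hν.ae_mem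
  have h2 : ∀ᵐ p : ℝ × ℝ ∂(ν.prod ν), p.2 ∈ Set.Icc 0 B :=
    Measure.quasiMeasurePreserving_snd.ae hν.ae_mem
  filter_upwards [h1, h2] with p a b
  exact ⟨a, b⟩

theorem integrable_kM {B : ℝ} {ν : Measure ℝ} (hν : On B ν) (M : ℕ) :
    Integrable (fun p : ℝ × ℝ => kM M p.1 p.2) (ν.prod ν) := by
  have := hν.1
  refine Integrable.of_bound (continuous_kM M).aestronglyMeasurable ((M : ℝ) + 2 * |B|) ?_
  filter_upwards [ae_prod hν] with p hp
  have h1 := kM_ge M p.1 p.2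
  have h2 := kM_le M hp.1.1 hp.2.1
  have h3 : (0 : ℝ) ≤ M := Nat.cast_nonneg M
  have h4 := le_abs_self B
  have h5 := hp.1.2
  have h6 := hp.2.2
  have h7 := abs_nonneg B
  rw [Real.norm_eq_abs, abs_le]
  constructor <;> linarith

theorem EM_eq {B : ℝ} {ν : Measure ℝ} (hν : On B ν) (M : ℕ) :
    EM M ν = ∫ p : ℝ × ℝ, kM M p.1 p.2 ∂(ν.prod ν) := by
  have := hν.1
  rw [integral_prod_symm _ (integrable_kM hν M)]
  rfl

theorem ae_ne {ν : Measure ℝ} (h : Eint ν) : ∀ᵐ p : ℝ × ℝ ∂(ν.prod ν), p.1 ≠ p.2 := by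
  rw [ae_iff]
  simpa using h.1

theorem En_le_EM {B : ℝ} {ν : Measure ℝ} (hν : On B ν) (h : Eint ν) (M : ℕ) :
    En ν ≤ EM M ν := by
  rw [EM_eq hν]
  refine integral_mono_ae h.2 (integrable_kM hν M) ?_
  filter_upwards [ae_ne h] with p hp
  exact log_le_kM M hp

theorem kM_eq {M : ℕ} {x y : ℝ} (hxy : x ≠ y) (h : -(M : ℝ) ≤ Real.log |x - y|) :
    kM M x y = Real.log |x - y| := by
  have h0 : 0 < |x - y| := abs_pos.2 (sub_ne_zero.2 hxy)
  unfold kM
  rw [max_eq_left]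
  exact (Real.le_log_iff_exp_le h0).1 h

theorem kM_eq' {M : ℕ} {x y : ℝ} (hxy : x ≠ y) (h : Real.log |x - y| < -(M : ℝ)) :
    kM M x y = -(M : ℝ) := by
  have h0 : 0 < |x - y| := abs_pos.2 (sub_ne_zero.2 hxy)
  unfold kM
  rw [max_eq_right, Real.log_exp]
  exact ((Real.log_lt_iff_lt_exp h0).1 h).le

theorem abs_kM_le {M : ℕ} {x y : ℝ} (hxy : x ≠ y) : |kM M x y| ≤ ‖Real.log |x - y|‖ := by
  rw [Real.norm_eq_abs]
  rcases le_or_gt (-(M : ℝ)) (Real.log |x - y|) with h | h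
  · rw [kM_eq hxy h]
  · rw [kM_eq' hxy h, abs_neg, abs_of_nonneg (Nat.cast_nonneg M)]
    have := neg_le_abs (Real.log |x - y|)
    linarith

theorem tendsto_EM {B : ℝ} {ν : Measure ℝ} (hν : On B ν) (h : Eint ν) :
    Tendsto (fun M : ℕ => EM M ν) atTop (𝓝 (En ν)) := by
  have e : (fun M : ℕ => EM M ν) = fun M : ℕ => ∫ p : ℝ × ℝ, kM M p.1 p.2 ∂(ν.prod ν) := by
    funext M
    exact EM_eq hν M
  rw [e]
  refine tendsto_integral_of_dominated_convergence (fun p => ‖Real.log |p.1 - p.2|‖)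
    (fun M => (continuous_kM M).aestronglyMeasurable) h.2.norm ?_ ?_
  · intro M
    filter_upwards [ae_ne h] with p hp
    exact abs_kM_le hp
  · filter_upwards [ae_ne h] with p hp
    refine tendsto_const_nhds.congr' ?_
    obtain ⟨N, hN⟩ := exists_nat_gt (-Real.log |p.1 - p.2|)
    filter_upwards [eventually_ge_atTop N] with M hM
    refine (kM_eq hp ?_).symm
    have : (N : ℝ) ≤ M := by exact_mod_cast hM
    linarith

/-- Near the minimum the truncated energies are small. -/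
theorem energy_upper {μ : Measure ℝ} (hμ : On 1000 μ) (hA : Arith μ) (hm : mean μ = lamSSS)
    (hE : Eint μ) (h0 : En μ = 0) {ε : ℝ} (hε : 0 < ε) :
    ∃ (M : ℕ) (F : Finset ℤ[X]) (δ : ℝ), 0 < δ ∧ (∀ Q ∈ F, Adm Q) ∧
      ∀ (B : ℝ) (ν : Measure ℝ), On B ν → (∀ Q ∈ F, LogNonneg ν Q) → mean ν ≤ lamSSS + δ →
        EM M ν ≤ ε := by
  have h1 := tendsto_EM hμ hE
  rw [h0] at h1
  obtain ⟨M, hM⟩ := (h1.eventually (gt_mem_nhds (show (0 : ℝ) < ε / 2 by linarith))).exists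
  obtain ⟨F, δ, a1, a2, a3⟩ := EM_upper hμ hA hm M (show 0 < ε / 2 by linarith)
  refine ⟨M, F, δ, a1, a2, fun B ν b1 b2 b3 => ?_⟩
  have := a3 B ν b1 b2 b3
  linarith

theorem EM_emp {p : ℤ[X]} (hp : Adm p) (M : ℕ) :
    EM M (emp p) = rsum p (fun α => rsum p (fun β => kM M α.re β.re)) / (p.natDegree : ℝ) ^ 2 := by
  have hn : (p.natDegree : ℝ) ≠ 0 := by
    have := hp.2.1
    exact_mod_cast this.ne'
  have e1 : ∀ y, gM M (emp p) y = rsum p (fun α => kM M α.re y) / p.natDegree := fun y => by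
    unfold gM
    exact integral_emp hp fun x => kM M x y
  have e2 : EM M (emp p) = rsum p (fun β => gM M (emp p) β.re) / p.natDegree := by
    unfold EM
    exact integral_emp hp fun y => gM M (emp p) y
  rw [e2]
  simp only [e1]
  have e3 : ∀ c : ℂ → ℝ, rsum p (fun β => c β / (p.natDegree : ℝ)) =
      rsum p c / (p.natDegree : ℝ) := fun c => by
    unfold rsum
    rw [← Multiset.sum_map_div]
  rw [e3, div_div, ← sq]
  congr 1
  refine rsum_congr p _ _ fun β _ => ?_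
  refine rsum_congr p _ _ fun α _ => ?_
  exact kM_symm M _ _

end Pool.Agent.Y94.EQ
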