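import Pool.Agent.Y94.EQ.Nor
import Pool.Agent.W401.SSS.Final

/-!
# Energy and discriminants near the minimum
-/

set_option autoImplicit false

open MeasureTheory Polynomial

namespace Pool.Agent.Y94.EQ

open Pool.Agent.W401.SSS

theorem adm_of {p : ℤ[X]} (h1 : p.Monic) (h2 : Irreducible p) : Adm p := by
  refine ⟨h2, ?_, by rw [h1.leadingCoeff]; exact one_pos⟩
  rcases Nat.eq_zero_or_pos p.natDegree with h | h
  · exfalso
    have := h1.natDegree_eq_zero.1 h
    rw [this] at h2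
    exact not_irreducible_one h2
  · exact h

theorem energy_all {ε : ℝ} (hε : 0 < ε) :
    ∃ (F : Finset ℤ[X]) (δ : ℝ), 0 < δ ∧ (∀ Q ∈ F, Irreducible Q) ∧
      (∀ (B : ℝ) (ν : Measure ℝ), On B ν → (∀ Q ∈ F, LogNonneg ν Q) → mean ν ≤ lamSSS + δ →
        Eint ν → En ν ≤ ε) ∧
      ∀ p : ℤ[X], p.Monic → Irreducible p → TotPos p → p ∉ F → mtr p ≤ lamSSS + δ →
        1 ≤ |(p.discr : ℝ)| ∧ |(p.discr : ℝ)| ≤ Real.exp (ε * (p.natDegree : ℝ) ^ 2) := by
  classical
  obtain ⟨-, ⟨μ, h1, h2, h3⟩, h4⟩ := facts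
  obtain ⟨-, hE, h0⟩ := h4 1000 μ h1 h2 h3
  obtain ⟨M, F, δ, a1, a2, a3⟩ := energy_upper h1 h2 h3 hE h0 (show 0 < ε / 2 by linarith)
  obtain ⟨N, hN⟩ := exists_nat_gt ((M : ℝ) / (ε / 2))
  have hfin := finite_totPos N (lamSSS + δ)
  refine ⟨F ∪ hfin.toFinset, δ, a1, ?_, ?_, ?_⟩
  · intro Q hQ
    rcases Finset.mem_union.1 hQ with h | h
    · exact (a2 Q h).1
    · exact ((Set.Finite.mem_toFinset hfin).1 h).2.1
  · intro B ν b1 b2 b3 b4
    have := a3 B ν b1 (fun Q hQ => b2 Q (Finset.mem_union_left _ hQ)) b3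
    have h5 := En_le_EM b1 b4 M
    linarith
  · intro p c1 c2 c3 c4 c5
    have hp := adm_of c1 c2
    have hpF : p ∉ F := fun h => c4 (Finset.mem_union_left _ h)
    have hdeg : N < p.natDegree := by
      by_contra hcon
      exact c4 (Finset.mem_union_right _ ((Set.Finite.mem_toFinset hfin).2
        ⟨c1, c2, c3, not_lt.1 hcon, c5⟩))
    obtain ⟨B, hB⟩ := on_emp hp c3
    have h5 := a3 B (emp p) hB (fun Q hQ => logNonneg_emp hp c1 c3 (a2 Q hQ)
      (fun h => hpF (h ▸ hQ))) (by rw [mean_emp hp]; exact c5)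
    have h6 := energy_emp hp (fun z hz => (c3 z hz).1) M
    obtain ⟨h7, h8⟩ := log_discr hp c1
    have h9 : (p.discr : ℝ) ≠ 0 := by exact_mod_cast h7
    refine ⟨?_, ?_⟩
    · have := Int.one_le_abs h7
      exact_mod_cast this
    · rw [← Real.log_le_iff_le_exp (abs_pos.2 h9), h8]
      have hn : (0 : ℝ) < p.natDegree := by exact_mod_cast hp.2.1
      have e1 : (p.natDegree : ℝ) ^ 2 * EM M (emp p) ≤ (p.natDegree : ℝ) ^ 2 * (ε / 2) :=
        mul_le_mul_of_nonneg_left h5 (by positivity)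
      have e2 : (M : ℝ) ≤ (ε / 2) * p.natDegree := by
        have e3 : (M : ℝ) / (ε / 2) < p.natDegree := hN.trans (by exact_mod_cast hdeg)
        rw [div_lt_iff₀ (by linarith)] at e3
        linarith
      have e4 : (M : ℝ) * p.natDegree ≤ (ε / 2) * p.natDegree * p.natDegree :=
        mul_le_mul_of_nonneg_right e2 hn.le
      nlinarith

end Pool.Agent.Y94.EQ
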