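import Pool.Agent.Y94.EQ.Emp

/-!
# Truncated logarithmic kernels and the energy
-/

set_option autoImplicit false

open MeasureTheory Polynomial

namespace Pool.Agent.Y94.EQ

open Pool.Agent.W401.SSS Pool.Agent.W401.SSS.DUALaux

/-- The truncated logarithmic kernel. -/
noncomputable def kM (M : ℕ) (x y : ℝ) : ℝ := Real.log (max |x - y| (Real.exp (-(M : ℝ))))

theorem kM_symm (M : ℕ) (x y : ℝ) : kM M x y = kM M y x := by
  unfold kM
  rw [abs_sub_comm]

theorem continuous_kM (M : ℕ) : Continuous (fun p : ℝ × ℝ => kM M p.1 p.2) := by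
  unfold kM
  refine Continuous.log ((continuous_fst.sub continuous_snd).abs.max continuous_const) fun x => ?_
  exact (lt_of_lt_of_le (Real.exp_pos _) (le_max_right _ _)).ne'

theorem continuous_kM_left (M : ℕ) (y : ℝ) : Continuous (fun x : ℝ => kM M x y) :=
  (continuous_kM M).comp (continuous_id.prodMk continuous_const)

theorem kM_ge (M : ℕ) (x y : ℝ) : -(M : ℝ) ≤ kM M x y := by
  unfold kM
  rw [Real.le_log_iff_exp_le (lt_of_lt_of_le (Real.exp_pos _) (le_max_right _ _))]
  exact le_max_right _ _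

theorem kM_le (M : ℕ) {x y : ℝ} (hx : 0 ≤ x) (hy : 0 ≤ y) : kM M x y ≤ x + y := by
  unfold kM
  have h1 : max |x - y| (Real.exp (-(M : ℝ))) ≤ 1 + (x + y) := by
    refine max_le ?_ ?_
    · rw [abs_le]
      constructor <;> linarith
    · have : Real.exp (-(M : ℝ)) ≤ 1 := Real.exp_le_one_iff.2 (neg_nonpos.2 (Nat.cast_nonneg _))
      linarith
  have h0 : 0 < max |x - y| (Real.exp (-(M : ℝ))) :=
    lt_of_lt_of_le (Real.exp_pos _) (le_max_right _ _)
  have h2 := Real.log_le_log h0 h1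
  have h3 := Real.log_le_sub_one_of_pos (show 0 < 1 + (x + y) by linarith)
  linarith

theorem log_le_kM (M : ℕ) {x y : ℝ} (h : x ≠ y) : Real.log |x - y| ≤ kM M x y :=
  Real.log_le_log (abs_pos.2 (sub_ne_zero.2 h)) (le_max_left _ _)

theorem log_lip {c a b : ℝ} (hc : 0 < c) (ha : c ≤ a) (hb : c ≤ b) :
    Real.log a ≤ Real.log b + |a - b| / c := by
  have ha0 : 0 < a := by linarith
  have hb0 : 0 < b := by linarith
  have h1 : Real.log (a / b) ≤ a / b - 1 := Real.log_le_sub_one_of_pos (by positivity)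
  rw [Real.log_div ha0.ne' hb0.ne'] at h1
  have h2 : a / b - 1 = (a - b) / b := by field_simp
  have h3 : (a - b) / b ≤ |a - b| / c := by
    rw [div_le_div_iff₀ hb0 hc]
    have := le_abs_self (a - b)
    have h4 := abs_nonneg (a - b)
    nlinarith
  linarith

theorem kM_lip (M : ℕ) (x y y' : ℝ) :
    kM M x y ≤ kM M x y' + Real.exp M * |y - y'| := by
  unfold kM
  have hc := Real.exp_pos (-(M : ℝ))
  have h1 := log_lip hc (le_max_right |x - y| (Real.exp (-(M : ℝ))))
    (le_max_right |x - y'| (Real.exp (-(M : ℝ))))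
  have h2 : |max |x - y| (Real.exp (-(M : ℝ))) - max |x - y'| (Real.exp (-(M : ℝ)))| ≤
      |y - y'| := by
    refine (abs_max_sub_max_le_abs _ _ _).trans ?_
    refine (abs_abs_sub_abs_le_abs_sub _ _).trans ?_
    rw [show x - y - (x - y') = -(y - y') by ring, abs_neg]
  have h3 : |max |x - y| (Real.exp (-(M : ℝ))) - max |x - y'| (Real.exp (-(M : ℝ)))| /
      Real.exp (-(M : ℝ)) ≤ Real.exp M * |y - y'| := by
    rw [div_le_iff₀ hc]
    have h4 : Real.exp M * |y - y'| * Real.exp (-(M : ℝ)) = |y - y'| := by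
      rw [mul_right_comm, ← Real.exp_add]
      simp
    rw [h4]
    exact h2
  linarith

/-- The potential of the truncated kernel. -/
noncomputable def gM (M : ℕ) (ν : Measure ℝ) (y : ℝ) : ℝ := ∫ x, kM M x y ∂ν

theorem gM_lip {B : ℝ} {ν : Measure ℝ} (hν : On B ν) (M : ℕ) (y y' : ℝ) :
    gM M ν y ≤ gM M ν y' + Real.exp M * |y - y'| := by
  have := hν.1
  unfold gM
  have h1 : ∫ x, kM M x y ∂ν ≤ ∫ x, (kM M x y' + Real.exp M * |y - y'|) ∂ν :=
    integral_mono (integrable_cont hν (continuous_kM_left M y))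
      ((integrable_cont hν (continuous_kM_left M y')).add (integrable_const _))
      fun x => kM_lip M x y y'
  rw [integral_add (integrable_cont hν (continuous_kM_left M y')) (integrable_const _),
    integral_const] at h1
  simpa using h1

theorem continuous_gM {B : ℝ} {ν : Measure ℝ} (hν : On B ν) (M : ℕ) : Continuous (gM M ν) := by
  have h : LipschitzWith (Real.toNNReal (Real.exp M)) (gM M ν) := by
    refine LipschitzWith.of_dist_le_mul fun y y' => ?_
    rw [Real.dist_eq, Real.dist_eq, abs_le, Real.coe_toNNReal _ (Real.exp_pos _).le]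
    have h1 := gM_lip hν M y y'
    have h2 := gM_lip hν M y' y
    rw [abs_sub_comm y' y] at h2
    constructor <;> linarith
  exact h.continuous

theorem gM_ge {B : ℝ} {ν : Measure ℝ} (hν : On B ν) (M : ℕ) (y : ℝ) : -(M : ℝ) ≤ gM M ν y := by
  have := hν.1
  have h : ∫ _x : ℝ, -(M : ℝ) ∂ν ≤ gM M ν y :=
    integral_mono (integrable_const _) (integrable_cont hν (continuous_kM_left M y))
      fun x => kM_ge M x y
  simpa using h

theorem gM_le {B : ℝ} {ν : Measure ℝ} (hν : On B ν) (M : ℕ) {y : ℝ} (hy : 0 ≤ y) :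
    gM M ν y ≤ mean ν + y := by
  have := hν.1
  have h : gM M ν y ≤ ∫ x, (x + y) ∂ν := by
    refine integral_mono_ae (integrable_cont hν (continuous_kM_left M y))
      ((integrable_x hν).add (integrable_const _)) ?_
    filter_upwards [hν.ae_mem] with x hx
    exact kM_le M hx.1 hy
  rw [integral_add (integrable_x hν) (integrable_const _), integral_const] at h
  simpa [mean] using h

/-- The truncated energy. -/
noncomputable def EM (M : ℕ) (ν : Measure ℝ) : ℝ := ∫ y, gM M ν y ∂ν

theorem uni_finset {μ : Measure ℝ} (hμ : On 1000 μ) (hA : Arith μ) (hm : mean μ = lamSSS)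
    {ι : Type} (I : Finset ι) (f : ι → ℝ → ℝ) (hf : ∀ i ∈ I, Continuous (f i))
    (hC : ∀ i ∈ I, ∃ C : ℝ, ∀ x, 0 ≤ x → |f i x| ≤ C * (1 + x)) {ε : ℝ} (hε : 0 < ε) :
    ∃ (F : Finset ℤ[X]) (δ : ℝ), 0 < δ ∧ δ ≤ 1 ∧ (∀ Q ∈ F, Adm Q) ∧
      ∀ (B : ℝ) (ν : Measure ℝ), On B ν → (∀ Q ∈ F, LogNonneg ν Q) → mean ν ≤ lamSSS + δ →
        ∀ i ∈ I, |∫ x, f i x ∂ν - ∫ x, f i x ∂μ| ≤ ε := by
  classical
  induction I using Finset.induction_on with
  | empty =>
    exact ⟨∅, 1, one_pos, le_rfl, by simp, by simp⟩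
  | insert i I hi ih =>
    obtain ⟨F, δ, h1, h1', h2, h3⟩ := ih (fun j hj => hf j (Finset.mem_insert_of_mem hj))
      (fun j hj => hC j (Finset.mem_insert_of_mem hj))
    obtain ⟨C, hCi⟩ := hC i (Finset.mem_insert_self i I)
    obtain ⟨F', δ', g1, g2, g3⟩ := uni hμ hA hm (hf i (Finset.mem_insert_self i I)) hCi hε
    refine ⟨F ∪ F', min δ δ', lt_min h1 g1, (min_le_left _ _).trans h1', ?_, ?_⟩
    · intro Q hQ
      rcases Finset.mem_union.1 hQ with h | h
      · exact h2 Q h
      · exact g2 Q h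
    · intro B ν hν hL hmν j hj
      rcases Finset.mem_insert.1 hj with rfl | h
      · exact g3 B ν hν (fun Q hQ => hL Q (Finset.mem_union_right _ hQ))
          (hmν.trans (by linarith [min_le_right δ δ']))
      · exact h3 B ν hν (fun Q hQ => hL Q (Finset.mem_union_left _ hQ))
          (hmν.trans (by linarith [min_le_left δ δ'])) j h

/-- Upper semicontinuity of the truncated energy at the minimiser. -/
theorem EM_upper {μ : Measure ℝ} (hμ : On 1000 μ) (hA : Arith μ) (hm : mean μ = lamSSS) (M : ℕ)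
    {ε : ℝ} (hε : 0 < ε) :
    ∃ (F : Finset ℤ[X]) (δ : ℝ), 0 < δ ∧ (∀ Q ∈ F, Adm Q) ∧
      ∀ (B : ℝ) (ν : Measure ℝ), On B ν → (∀ Q ∈ F, LogNonneg ν Q) → mean ν ≤ lamSSS + δ →
        EM M ν ≤ EM M μ + ε := by
  classical
  obtain ⟨N, hN0, hN⟩ : ∃ N : ℕ, 0 < N ∧ Real.exp M * (2000 / N) ≤ ε / 8 := by
    obtain ⟨N, hN⟩ := exists_nat_gt (Real.exp M * 2000 / (ε / 8))
    have h0 : 0 ≤ Real.exp M * 2000 / (ε / 8) := by positivity
    have hNpos : (0 : ℝ) < N := lt_of_le_of_lt h0 hN
    refine ⟨N, by exact_mod_cast hNpos, ?_⟩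
    rw [div_lt_iff₀ (by positivity)] at hN
    rw [mul_div_assoc', div_le_iff₀ hNpos]
    linarith
  have hNR : (0 : ℝ) < N := by exact_mod_cast hN0
  obtain ⟨F1, δ1, a1, a1', a2, a3⟩ := uni_finset hμ hA hm (Finset.range (N + 1))
    (fun i x => kM M x (2000 * i / N)) (fun i _ => continuous_kM_left M _)
    (fun i _ => ⟨(M : ℝ) + 1 + 2000 * i / N, fun x hx => by
      have h0 : (0 : ℝ) ≤ 2000 * i / N := by positivity
      have h1 := kM_ge M x (2000 * i / N)
      have h2 := kM_le M hx h0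
      have h3 : (0 : ℝ) ≤ M := Nat.cast_nonneg M
      rw [abs_le]
      constructor
      · nlinarith
      · nlinarith⟩) (show 0 < ε / 4 by linarith)
  obtain ⟨F2, δ2, b1, b2, b3⟩ := uni hμ hA hm (continuous_gM hμ M) (C := (M : ℝ) + lamSSS + 1)
    (fun y hy => by
      have h1 := gM_ge hμ M y
      have h2 := gM_le hμ M hy
      rw [hm] at h2
      have h3 : (0 : ℝ) ≤ M := Nat.cast_nonneg M
      have h4 := lam_nonneg
      rw [abs_le]
      constructor
      · nlinarith
      · nlinarith) (show 0 < ε / 4 by linarith)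
  obtain ⟨F3, δ3, c1, c2, c3⟩ := tail (show 0 < ε / (8 * ((M : ℝ) + 8)) by positivity)
  refine ⟨F1 ∪ F2 ∪ F3, min δ1 (min δ2 δ3), lt_min a1 (lt_min b1 c1), ?_, ?_⟩
  · intro Q hQ
    rcases Finset.mem_union.1 hQ with h | h
    · rcases Finset.mem_union.1 h with h | h
      · exact a2 Q h
      · exact b2 Q h
    · exact c2 Q h
  · intro B ν hν hL hmν
    have := hν.1
    have hd1 : mean ν ≤ lamSSS + δ1 := hmν.trans (by linarith [min_le_left δ1 (min δ2 δ3)])
    have hd2 : mean ν ≤ lamSSS + δ2 := hmν.trans (by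
      linarith [(min_le_right δ1 (min δ2 δ3)).trans (min_le_left δ2 δ3)])
    have hd3 : mean ν ≤ lamSSS + δ3 := hmν.trans (by
      linarith [(min_le_right δ1 (min δ2 δ3)).trans (min_le_right δ2 δ3)])
    have h1 := a3 B ν hν (fun Q hQ => hL Q (Finset.mem_union_left _ (Finset.mem_union_left _ hQ)))
      hd1
    have h2 := b3 B ν hν (fun Q hQ => hL Q (Finset.mem_union_left _ (Finset.mem_union_right _ hQ)))
      hd2
    have h3 := c3 B ν hν (fun Q hQ => hL Q (Finset.mem_union_right _ hQ)) hd3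
    set T := ∫ x in Set.Ioi (2000 : ℝ), x ∂ν with hTdef
    have hmean : mean ν ≤ 7 := by
      have := lam_le_six
      linarith
    have hpt : ∀ y : ℝ, 0 ≤ y → y ≤ 2000 → gM M ν y ≤ gM M μ y + ε / 2 := by
      intro y hy0 hy1
      obtain ⟨i, hi, hyi⟩ : ∃ i ∈ Finset.range (N + 1), |y - 2000 * (i : ℝ) / N| ≤ 2000 / N := by
        refine ⟨⌊y * N / 2000⌋₊, ?_, ?_⟩
        · rw [Finset.mem_range, Nat.lt_succ_iff]
          apply Nat.floor_le_of_le
          rw [div_le_iff₀ (by norm_num)]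
          nlinarith
        · have g1 : ((⌊y * N / 2000⌋₊ : ℕ) : ℝ) ≤ y * N / 2000 := Nat.floor_le (by positivity)
          have g2 : y * N / 2000 < (⌊y * N / 2000⌋₊ : ℕ) + 1 := Nat.lt_floor_add_one _
          have g3 : 2000 * ((⌊y * N / 2000⌋₊ : ℕ) : ℝ) / N ≤ y := by
            rw [div_le_iff₀ hNR]
            linarith
          have g4 : y ≤ 2000 * ((⌊y * N / 2000⌋₊ : ℕ) : ℝ) / N + 2000 / N := by
            rw [← add_div, le_div_iff₀ hNR]
            linarith
          have g5 : 0 ≤ 2000 / (N : ℝ) := by positivity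
          rw [abs_le]
          constructor <;> linarith
      have e1 := h1 i hi
      have e2 := gM_lip hν M y (2000 * i / N)
      have e3 := gM_lip hμ M (2000 * i / N) y
      rw [abs_sub_comm] at e3
      have e4 : Real.exp M * |y - 2000 * (i : ℝ) / N| ≤ ε / 8 :=
        (mul_le_mul_of_nonneg_left hyi (Real.exp_pos _).le).trans hN
      have e5 : gM M ν (2000 * i / N) ≤ gM M μ (2000 * i / N) + ε / 4 := by
        have := (abs_le.1 e1).2
        unfold gM
        linarith
      linarith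
    have hcomp : -(((M : ℝ) + 8) * T) ≤ ∫ y, (gM M μ y + ε / 2 - gM M ν y) ∂ν := by
      have hint : Integrable (fun y => gM M μ y + ε / 2 - gM M ν y) ν :=
        ((integrable_cont hν (continuous_gM hμ M)).add (integrable_const _)).sub
          (integrable_cont hν (continuous_gM hν M))
      refine small hν hint ?_ ?_
      · filter_upwards [hν.ae_mem] with y hy h
        have := hpt y hy.1 h
        linarith
      · filter_upwards with y h
        have e1 := gM_le hν M (show 0 ≤ y by linarith)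
        have e2 := gM_ge hμ M y
        have e3 : (0 : ℝ) ≤ M := Nat.cast_nonneg M
        nlinarith
    have hsplit : ∫ y, (gM M μ y + ε / 2 - gM M ν y) ∂ν = ∫ y, gM M μ y ∂ν + ε / 2 - EM M ν := by
      have i1 : Integrable (fun y => gM M μ y) ν := integrable_cont hν (continuous_gM hμ M)
      have i2 : Integrable (fun _ : ℝ => ε / 2) ν := integrable_const _
      have i3 : Integrable (fun y => gM M ν y) ν := integrable_cont hν (continuous_gM hν M)
      have q1 : ∫ y, (gM M μ y + ε / 2 - gM M ν y) ∂ν =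
          ∫ y, (gM M μ y + ε / 2) ∂ν - ∫ y, gM M ν y ∂ν := integral_sub (i1.add i2) i3
      have q2 : ∫ y, (gM M μ y + ε / 2) ∂ν = ∫ y, gM M μ y ∂ν + ∫ _y : ℝ, ε / 2 ∂ν :=
        integral_add i1 i2
      rw [q1, q2, integral_const]
      simp only [probReal_univ, one_smul]
      rfl
    rw [hsplit] at hcomp
    have e2 := (abs_le.1 h2).2
    have e3 : ((M : ℝ) + 8) * T ≤ ε / 8 := by
      have h8 : (0 : ℝ) < (M : ℝ) + 8 := by positivity
      have := mul_le_mul_of_nonneg_left h3 h8.le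
      have e : ((M : ℝ) + 8) * (ε / (8 * ((M : ℝ) + 8))) = ε / 8 := by
        field_simp
      linarith
    have e4 : ∫ y, gM M μ y ∂μ = EM M μ := rfl
    linarith

end Pool.Agent.Y94.EQ
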