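import Pool.Agent.W401.SSS.Final

/-!
# Compactness: finitely many conditions determine the minimiser approximately
-/

set_option autoImplicit false

open MeasureTheory Polynomial

namespace Pool.Agent.Y94.EQ

open Pool.Agent.W401.SSS Pool.Agent.W401.SSS.DUALaux

theorem key_one {B : ℝ} {μ : Measure ℝ} (hB : 0 ≤ B) (hμ : On B μ) (hA : Arith μ)
    (hm : mean μ = lamSSS) {f : ℝ → ℝ} (hf : Continuous f) {ε : ℝ} (hε : 0 < ε) :
    ∃ (S : Finset (ℤ[X] × ℕ)) (δ : ℝ), 0 < δ ∧ (∀ s ∈ S, Adm s.1) ∧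
      ∀ ν : Measure ℝ, On B ν → (∀ s ∈ S, -δ ≤ ∫ x, trunc s.1 s.2 x ∂ν) →
        mean ν ≤ lamSSS + δ → ∫ x, f x ∂ν ≤ ∫ x, f x ∂μ + ε := by
  classical
  by_contra hcon
  push Not at hcon
  let ι : Type := ({Q : ℤ[X] // Adm Q} × ℕ × ℕ) ⊕ (ℕ ⊕ Unit)
  let g : ι → ℝ → ℝ := Sum.elim (fun i x => trunc i.1.1 i.2.1 x + 1 / ((i.2.2 : ℝ) + 1))
    (Sum.elim (fun j x => lamSSS + 1 / ((j : ℝ) + 1) - x)
      (fun _ x => f x - (∫ x, f x ∂μ + ε)))
  have hgc : ∀ i, Continuous (g i) := by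
    rintro (i | j | u)
    · exact (continuous_trunc i.1.1 i.2.1).add continuous_const
    · exact continuous_const.sub continuous_id
    · exact hf.sub continuous_const
  have hfin : ∀ S : Finset ι, ∃ ν : Measure ℝ, On B ν ∧ ∀ i ∈ S, 0 ≤ ∫ x, g i x ∂ν := by
    intro S0
    let idx : ι → ℕ := Sum.elim (fun i => i.2.2) (Sum.elim (fun j => j) (fun _ => 0))
    let N : ℕ := S0.sup idx
    let pr : ι → Option (ℤ[X] × ℕ) := Sum.elim (fun i => some (i.1.1, i.2.1)) (fun _ => none)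
    let S : Finset (ℤ[X] × ℕ) := (S0.image pr).eraseNone
    have hδ : (0 : ℝ) < 1 / ((N : ℝ) + 1) := by positivity
    have hle : ∀ i ∈ S0, 1 / ((N : ℝ) + 1) ≤ 1 / ((idx i : ℝ) + 1) := by
      intro i hi
      have h1 : idx i ≤ N := Finset.le_sup (f := idx) hi
      have h2 : (idx i : ℝ) ≤ N := by exact_mod_cast h1
      exact one_div_le_one_div_of_le (by positivity) (by linarith)
    obtain ⟨ν, hν, h1, h2, h3⟩ := hcon S (1 / ((N : ℝ) + 1)) hδ (by
      intro s hs
      rw [Finset.mem_eraseNone, Finset.mem_image] at hs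
      obtain ⟨i, -, hi⟩ := hs
      rcases i with i | i
      · have : (i.1.1, i.2.1) = s := by simpa [pr] using hi
        rw [← this]
        exact i.1.2
      · simp [pr] at hi)
    have := hν.1
    refine ⟨ν, hν, ?_⟩
    intro i hi
    have h4 := hle i hi
    rcases i with i | j | u
    · have h5 : (i.1.1, i.2.1) ∈ S := by
        rw [Finset.mem_eraseNone, Finset.mem_image]
        exact ⟨_, hi, rfl⟩
      have h6 := h1 _ h5
      show 0 ≤ ∫ x, (trunc i.1.1 i.2.1 x + 1 / ((i.2.2 : ℝ) + 1)) ∂ν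
      rw [integral_add (integrable_cont hν (continuous_trunc _ _)) (integrable_const _),
        integral_const]
      have h7 : 1 / ((N : ℝ) + 1) ≤ 1 / ((i.2.2 : ℝ) + 1) := h4
      simp only [probReal_univ, one_smul]
      have h8 : -(1 / ((N : ℝ) + 1)) ≤ ∫ x, trunc i.1.1 i.2.1 x ∂ν := h6
      linarith
    · show 0 ≤ ∫ x, (lamSSS + 1 / ((j : ℝ) + 1) - x) ∂ν
      rw [integral_sub (integrable_const _) (integrable_x hν), integral_const]
      have h7 : 1 / ((N : ℝ) + 1) ≤ 1 / ((j : ℝ) + 1) := h4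
      simp only [probReal_univ, one_smul]
      have h8 : ∫ x, x ∂ν ≤ lamSSS + 1 / ((N : ℝ) + 1) := h2
      linarith
    · show 0 ≤ ∫ x, (f x - (∫ x, f x ∂μ + ε)) ∂ν
      rw [integral_sub (integrable_cont hν hf) (integrable_const _), integral_const]
      simp only [probReal_univ, one_smul]
      linarith
  obtain ⟨ν, hν, hg⟩ := pCPT B hB ι g hgc hfin
  have := hν.1
  have hA' : Arith ν := by
    refine pFACT B ν hν fun Q hQ => pTRUNC B ν Q hQ.ne_zero hν fun M => ?_
    by_contra hneg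
    push Not at hneg
    obtain ⟨j, hj⟩ := exists_nat_one_div_lt (neg_pos.2 hneg)
    have h1 : 0 ≤ ∫ x, (trunc Q M x + 1 / ((j : ℝ) + 1)) ∂ν := hg (Sum.inl (⟨Q, hQ⟩, M, j))
    rw [integral_add (integrable_cont hν (continuous_trunc _ _)) (integrable_const _),
      integral_const] at h1
    simp only [probReal_univ, one_smul] at h1
    linarith
  have hm1 : mean ν ≤ lamSSS := by
    by_contra hneg
    push Not at hneg
    obtain ⟨j, hj⟩ := exists_nat_one_div_lt (sub_pos.2 hneg)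
    have h1 : 0 ≤ ∫ x, (lamSSS + 1 / ((j : ℝ) + 1) - x) ∂ν := hg (Sum.inr (Sum.inl j))
    rw [integral_sub (integrable_const _) (integrable_x hν), integral_const] at h1
    simp only [probReal_univ, one_smul] at h1
    have h2 : mean ν = ∫ x, x ∂ν := rfl
    linarith
  have hm2 : lamSSS ≤ mean ν := facts.1 B ν hν hA'
  have e := unique_facts hμ hA hm hν hA' (le_antisymm hm1 hm2)
  have h1 : 0 ≤ ∫ x, (f x - (∫ x, f x ∂μ + ε)) ∂ν := hg (Sum.inr (Sum.inr ()))
  rw [integral_sub (integrable_cont hν hf) (integrable_const _), integral_const] at h1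
  simp only [probReal_univ, one_smul] at h1
  rw [← e] at h1
  linarith

/-- Two-sided version. -/
theorem key {B : ℝ} {μ : Measure ℝ} (hB : 0 ≤ B) (hμ : On B μ) (hA : Arith μ)
    (hm : mean μ = lamSSS) {f : ℝ → ℝ} (hf : Continuous f) {ε : ℝ} (hε : 0 < ε) :
    ∃ (S : Finset (ℤ[X] × ℕ)) (δ : ℝ), 0 < δ ∧ (∀ s ∈ S, Adm s.1) ∧
      ∀ ν : Measure ℝ, On B ν → (∀ s ∈ S, -δ ≤ ∫ x, trunc s.1 s.2 x ∂ν) →
        mean ν ≤ lamSSS + δ → |∫ x, f x ∂ν - ∫ x, f x ∂μ| ≤ ε := by
  classical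
  obtain ⟨S, δ, h1, h2, h3⟩ := key_one hB hμ hA hm hf hε
  obtain ⟨S', δ', g1, g2, g3⟩ := key_one hB hμ hA hm hf.neg hε
  refine ⟨S ∪ S', min δ δ', lt_min h1 g1, ?_, ?_⟩
  · intro s hs
    rcases Finset.mem_union.1 hs with h | h
    · exact h2 s h
    · exact g2 s h
  · intro ν hν hS hmν
    have a := h3 ν hν (fun s hs => (neg_le_neg (min_le_left _ _)).trans
      (hS s (Finset.mem_union_left _ hs))) (hmν.trans (by linarith [min_le_left δ δ']))
    have b := g3 ν hν (fun s hs => (neg_le_neg (min_le_right _ _)).trans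
      (hS s (Finset.mem_union_right _ hs))) (hmν.trans (by linarith [min_le_right δ δ']))
    simp only [Pi.neg_apply, integral_neg] at b
    rw [abs_le]
    constructor <;> linarith

end Pool.Agent.Y94.EQ
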