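import Pool.Agent.Y94.EQ.Dis

/-!
# Finiteness of totally positive polynomials of bounded degree and trace
-/

set_option autoImplicit false

open MeasureTheory Polynomial

namespace Pool.Agent.Y94.EQ

open Pool.Agent.W401.SSS

theorem finite_coeff (d : ℕ) (C : ℤ) :
    {p : ℤ[X] | p.natDegree ≤ d ∧ ∀ i, |p.coeff i| ≤ C}.Finite := by
  have h1 : {f : Fin (d + 1) → ℤ | ∀ i, f i ∈ Set.Icc (-C) C}.Finite :=
    Set.Finite.pi' fun _ => Set.finite_Icc _ _
  refine Set.Finite.of_injOn (f := fun (p : ℤ[X]) (i : Fin (d + 1)) => p.coeff i) ?_ ?_ h1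
  · intro p hp i
    exact abs_le.1 (hp.2 i)
  · intro p hp q hq h
    ext i
    by_cases hi : i < d + 1
    · exact congrFun h ⟨i, hi⟩
    · rw [coeff_eq_zero_of_natDegree_lt (lt_of_le_of_lt hp.1 (by omega)),
        coeff_eq_zero_of_natDegree_lt (lt_of_le_of_lt hq.1 (by omega))]

theorem finite_totPos (d : ℕ) (t : ℝ) :
    {p : ℤ[X] | p.Monic ∧ Irreducible p ∧ TotPos p ∧ p.natDegree ≤ d ∧ mtr p ≤ t}.Finite := by
  classical
  set B : ℝ := d * |t| with hB
  obtain ⟨C, hC⟩ := exists_nat_ge (max B 1 ^ d * d.choose (d / 2))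
  refine (finite_coeff d C).subset ?_
  rintro p ⟨h1, h2, h3, h4, h5⟩
  refine ⟨h4, fun i => ?_⟩
  have hd : 0 < p.natDegree := by
    rcases Nat.eq_zero_or_pos p.natDegree with h | h
    · exfalso
      have := h1.natDegree_eq_zero.1 h
      rw [this] at h2
      exact not_irreducible_one h2
    · exact h
  have hp : Adm p := ⟨h2, hd, by rw [h1.leadingCoeff]; exact one_pos⟩
  have hroots : ∀ z ∈ (p.map (Int.castRingHom ℂ)).roots, ‖z‖ ≤ B := by
    intro z hz
    have hz' : z ∈ rts p := hz
    have e1 : ‖z‖ = z.re := by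
      have : z = ((z.re : ℝ) : ℂ) := by
        apply Complex.ext
        · simp
        · simp [(h3 z hz').1]
      rw [this, Complex.norm_real, Real.norm_eq_abs, Complex.ofReal_re,
        abs_of_nonneg (h3 z hz').2]
    have e2 : z.re ≤ rsum p (fun w => w.re) := by
      rw [rsum_eq hp]
      exact Finset.single_le_sum (f := fun w : ℂ => w.re)
        (fun w hw => (h3 w (Multiset.mem_toFinset.1 hw)).2) (Multiset.mem_toFinset.2 hz')
    have e3 : rsum p (fun w => w.re) ≤ t * p.natDegree := by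
      have hn : (0 : ℝ) < p.natDegree := by exact_mod_cast hd
      have := h5
      unfold mtr at this
      rwa [div_le_iff₀ hn] at this
    have e4 : t * p.natDegree ≤ B := by
      have a1 : (p.natDegree : ℝ) ≤ d := by exact_mod_cast h4
      have a2 : t * p.natDegree ≤ |t| * p.natDegree :=
        mul_le_mul_of_nonneg_right (le_abs_self t) (Nat.cast_nonneg _)
      have a3 : |t| * p.natDegree ≤ |t| * d := mul_le_mul_of_nonneg_left a1 (abs_nonneg t)
      rw [hB]
      linarith
    linarith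
  have h6 := coeff_bdd_of_roots_le (Int.castRingHom ℂ) h1 (IsAlgClosed.splits _) h4 hroots i
  rw [coeff_map] at h6
  have h7 : ‖(Int.castRingHom ℂ) (p.coeff i)‖ = |(p.coeff i : ℝ)| := by
    rw [eq_intCast, Complex.norm_intCast]
  rw [h7] at h6
  have h8 : |(p.coeff i : ℝ)| ≤ C := h6.trans hC
  exact_mod_cast h8

end Pool.Agent.Y94.EQ
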