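import Pool.Agent.W401.SSS.Final

/-!
# Control of the tails by a certificate
-/

set_option autoImplicit false

open MeasureTheory Polynomial

namespace Pool.Agent.Y94.EQ

open Pool.Agent.W401.SSS Pool.Agent.W401.SSS.DUALaux

theorem lam_nonneg : 0 ≤ lamSSS := by
  obtain ⟨μ, h1, -, h3⟩ := facts.2.1
  rw [← h3]
  exact h1.mean_nonneg

theorem lam_le_six : lamSSS ≤ 6 := by
  obtain ⟨ν, h1, h2, -, h4, -⟩ := fUNIF
  rw [← h2]
  exact facts.1 12 ν h1 h4

theorem log_ev_le {Q : ℤ[X]} (hQ : Adm Q) {x : ℝ} (hx : 0 ≤ x) (hne : ev Q x ≠ 0) :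
    Real.log |ev Q x| ≤ wt Q * (1 + Real.log (1 + x)) := by
  have hl : 0 ≤ Real.log (1 + x) := Real.log_nonneg (by linarith)
  rw [hQ.log_abs_ev hne]
  have h1 : rsum Q (fun α => Real.log ‖(x : ℂ) - α‖) ≤
      rsum Q (fun α => Real.log (1 + ‖α‖) + Real.log (1 + x)) := by
    refine rsum_le Q _ _ fun α _ => ?_
    have ha : 0 ≤ ‖α‖ := norm_nonneg α
    have h0 : 0 ≤ Real.log (1 + ‖α‖) := Real.log_nonneg (by linarith)
    rcases eq_or_lt_of_le (norm_nonneg ((x : ℂ) - α)) with h | h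
    · rw [← h, Real.log_zero]
      linarith
    · rw [← Real.log_mul (by linarith) (by linarith)]
      refine Real.log_le_log h ?_
      have : ‖(x : ℂ) - α‖ ≤ ‖(x : ℂ)‖ + ‖α‖ := norm_sub_le _ _
      rw [Complex.norm_real, Real.norm_of_nonneg hx] at this
      nlinarith
  rw [rsum_add Q (fun α => Real.log (1 + ‖α‖)) (fun _ => Real.log (1 + x)), rsum_const] at h1
  have h2 := wt_eq Q
  have h3 : (Q.natDegree : ℝ) * Real.log (1 + x) ≤ wt Q * Real.log (1 + x) :=
    mul_le_mul_of_nonneg_right hQ.deg_le_wt hl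
  have h4 : (0 : ℝ) ≤ Q.natDegree := Nat.cast_nonneg _
  nlinarith

theorem pot_le_log {lam η B : ℝ} {F : Finset ℤ[X]} {a : ℤ[X] → ℝ} (hC : Cert lam η B F a)
    (hB : 12 ≤ B) (hl : 0 ≤ lam) (hη : η ≤ 1) {x : ℝ} (hx : 0 ≤ x)
    (hne : ∀ Q ∈ F, ev Q x ≠ 0) : pot F a x ≤ 70 * (1 + Real.log (1 + x)) := by
  have h1 := fCB lam η B F a hB hl hη hC
  have hl : 0 ≤ Real.log (1 + x) := Real.log_nonneg (by linarith)
  have h2 : pot F a x ≤ ∑ Q ∈ F, a Q * wt Q * (1 + Real.log (1 + x)) := by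
    unfold pot
    refine Finset.sum_le_sum fun Q hQ => ?_
    rw [mul_assoc]
    exact mul_le_mul_of_nonneg_left (log_ev_le (hC.adm Q hQ) hx (hne Q hQ)) (hC.pos Q hQ).le
  rw [← Finset.sum_mul] at h2
  exact h2.trans (mul_le_mul_of_nonneg_right h1 (by linarith))

theorem hh_ge {lam η : ℝ} {F : Finset ℤ[X]} {a : ℤ[X] → ℝ} (hC : Cert lam η 2000 F a)
    (hl : 0 ≤ lam) (hl6 : lam ≤ 6) (hη0 : 0 < η) (hη : η ≤ 1) {x : ℝ} (hx : 2000 ≤ x)
    (hne : ∀ Q ∈ F, ev Q x ≠ 0) : x / 4 ≤ hh lam η F a x := by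
  have h1 := pot_le_log hC (by norm_num) hl hη (by linarith : (0 : ℝ) ≤ x) hne
  have h2 : Real.log (1 + x) ≤ 11 * Real.log 2 + ((1 + x) / 2048 - 1) := by
    have e : 1 + x = 2048 * ((1 + x) / 2048) := by ring
    have e2 : Real.log 2048 = 11 * Real.log 2 := by
      rw [show (2048 : ℝ) = 2 ^ 11 by norm_num, Real.log_pow]
      norm_num
    calc Real.log (1 + x) = Real.log (2048 * ((1 + x) / 2048)) := by rw [← e]
      _ = Real.log 2048 + Real.log ((1 + x) / 2048) :=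
          Real.log_mul (by norm_num) (by positivity)
      _ ≤ _ := by
          rw [e2]
          have := Real.log_le_sub_one_of_pos (show 0 < (1 + x) / 2048 by positivity)
          linarith
  have h3 := Real.log_two_lt_d9
  unfold hh
  nlinarith

theorem tail {τ : ℝ} (hτ : 0 < τ) : ∃ (F : Finset ℤ[X]) (δ : ℝ), 0 < δ ∧ (∀ Q ∈ F, Adm Q) ∧
    ∀ (B : ℝ) (ν : Measure ℝ), On B ν → (∀ Q ∈ F, LogNonneg ν Q) → mean ν ≤ lamSSS + δ →
      ∫ x in Set.Ioi (2000 : ℝ), x ∂ν ≤ τ := by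
  have hη0 : 0 < min (τ / 8) 1 := lt_min (by linarith) one_pos
  obtain ⟨F, a, hC⟩ := fDUAL 2000 lamSSS (min (τ / 8) 1) (by norm_num) hη0
    (fun ν h h' => facts.1 2000 ν h h')
  refine ⟨F, τ / 8, by linarith, hC.adm, ?_⟩
  intro B ν hν hL hm
  have := hν.1
  set η := min (τ / 8) 1 with hη
  have hη8 : η ≤ τ / 8 := min_le_left _ _
  have hη1 : η ≤ 1 := min_le_right _ _
  have hnz : ∀ᵐ x ∂ν, ∀ Q ∈ F, ev Q x ≠ 0 := by
    rw [Filter.eventually_all_finset]
    intro Q hQ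
    rw [ae_iff]
    simpa using (hL Q hQ).1
  have hsup := hν.ae_mem
  have hpi : Integrable (pot F a) ν := by
    unfold pot
    exact integrable_finsetSum F fun Q hQ => ((hL Q hQ).2.1).const_mul _
  have hhi : Integrable (hh lamSSS η F a) ν := by
    unfold hh
    exact (((integrable_x hν).sub (integrable_const _)).add (integrable_const _)).sub hpi
  have hhint : ∫ x, hh lamSSS η F a x ∂ν ≤ τ / 4 := by
    have e : ∫ x, hh lamSSS η F a x ∂ν = mean ν - lamSSS + η - ∫ x, pot F a x ∂ν := by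
      have hi1 : Integrable (fun x : ℝ => x) ν := integrable_x hν
      have hi2 : Integrable (fun x : ℝ => x - lamSSS) ν := hi1.sub (integrable_const _)
      have hi3 : Integrable (fun x : ℝ => x - lamSSS + η) ν := hi2.add (integrable_const _)
      unfold hh
      rw [integral_sub hi3 hpi, integral_add hi2 (integrable_const _),
        integral_sub hi1 (integrable_const _), integral_const, integral_const]
      simp only [probReal_univ, one_smul]
      rfl
    have h2 : 0 ≤ ∫ x, pot F a x ∂ν := by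
      unfold pot
      rw [integral_finsetSum F fun Q hQ => ((hL Q hQ).2.1).const_mul _]
      refine Finset.sum_nonneg fun Q hQ => ?_
      rw [integral_const_mul]
      exact mul_nonneg (hC.pos Q hQ).le (hL Q hQ).2.2
    rw [e]
    linarith
  have hge : ∀ᵐ x ∂ν, 2000 < x → x ≤ 4 * hh lamSSS η F a x := by
    filter_upwards [hnz] with x hx h
    have := hh_ge hC lam_nonneg lam_le_six hη0 hη1 h.le hx
    linarith
  have hnn : ∀ᵐ x ∂ν, 0 ≤ 4 * hh lamSSS η F a x := by
    filter_upwards [hnz, hsup] with x hx h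
    rcases le_or_gt x 2000 with h1 | h1
    · have := hC.le x ⟨h.1, h1⟩ hx
      unfold hh
      linarith
    · have := hh_ge hC lam_nonneg lam_le_six hη0 hη1 h1.le hx
      linarith
  have h1 : ∫ x in Set.Ioi (2000 : ℝ), x ∂ν ≤ ∫ x in Set.Ioi (2000 : ℝ), 4 * hh lamSSS η F a x ∂ν := by
    refine setIntegral_mono_on_ae (integrable_x hν).integrableOn (hhi.const_mul 4).integrableOn
      measurableSet_Ioi ?_
    filter_upwards [hge] with x hx h using hx h
  have h2 : ∫ x in Set.Ioi (2000 : ℝ), 4 * hh lamSSS η F a x ∂ν ≤ ∫ x, 4 * hh lamSSS η F a x ∂ν :=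
    setIntegral_le_integral (hhi.const_mul 4) hnn
  have h3 : ∫ x, 4 * hh lamSSS η F a x ∂ν = 4 * ∫ x, hh lamSSS η F a x ∂ν :=
    integral_const_mul _ _
  linarith

end Pool.Agent.Y94.EQ
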