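import Pool.Agent.Y94.EQ.Key
import Pool.Agent.Y94.EQ.Tail

/-!
# Finitely many conditions determine the minimiser approximately, without compactness
-/

set_option autoImplicit false

open MeasureTheory Polynomial

namespace Pool.Agent.Y94.EQ

open Pool.Agent.W401.SSS Pool.Agent.W401.SSS.DUALaux

theorem small {B : ℝ} {ν : Measure ℝ} (hν : On B ν) {h : ℝ → ℝ} (hi : Integrable h ν) {K : ℝ}
    (h0 : ∀ᵐ x ∂ν, x ≤ 2000 → 0 ≤ h x) (h1 : ∀ᵐ x ∂ν, 2000 < x → -(K * x) ≤ h x) :
    -(K * ∫ x in Set.Ioi (2000 : ℝ), x ∂ν) ≤ ∫ x, h x ∂ν := by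
  have := hν.1
  have e : -(K * ∫ x in Set.Ioi (2000 : ℝ), x ∂ν) =
      ∫ x, (Set.Ioi (2000 : ℝ)).indicator (fun x => -(K * x)) x ∂ν := by
    rw [integral_indicator measurableSet_Ioi, integral_neg, integral_const_mul]
  rw [e]
  refine integral_mono_ae ?_ hi ?_
  · exact (((integrable_x hν).const_mul K).neg).indicator measurableSet_Ioi
  · filter_upwards [h0, h1] with x a b
    by_cases hx : 2000 < x
    · rw [Set.indicator_of_mem (show x ∈ Set.Ioi (2000 : ℝ) from hx)]
      exact b hx
    · rw [Set.indicator_of_notMem (show x ∉ Set.Ioi (2000 : ℝ) from hx)]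
      exact a (not_lt.1 hx)

theorem on_clip {B : ℝ} {ν : Measure ℝ} (hν : On B ν) :
    On 2000 (ν.map (fun x => min x 2000)) := by
  have := hν.1
  have hmeas : Measurable (fun x : ℝ => min x 2000) := (continuous_id.min continuous_const).measurable
  refine ⟨Measure.isProbabilityMeasure_map hmeas.aemeasurable, ?_⟩
  rw [Measure.map_apply hmeas measurableSet_Icc.compl]
  refine measure_mono_null ?_ hν.2
  intro x hx h
  exact hx ⟨le_min h.1 (by norm_num), min_le_right _ _⟩

theorem integral_clip {ν : Measure ℝ} {g : ℝ → ℝ} (hg : Continuous g) :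
    ∫ x, g x ∂(ν.map (fun x => min x 2000)) = ∫ x, g (min x 2000) ∂ν :=
  integral_map (continuous_id.min continuous_const).measurable.aemeasurable
    hg.aestronglyMeasurable

theorem trunc_ge (Q : ℤ[X]) (M : ℕ) (x : ℝ) : -(M : ℝ) ≤ trunc Q M x := by
  unfold trunc
  rw [Real.le_log_iff_exp_le (lt_of_lt_of_le (Real.exp_pos _) (le_max_right _ _))]
  exact le_max_right _ _

theorem uni {μ : Measure ℝ} (hμ : On 1000 μ) (hA : Arith μ) (hm : mean μ = lamSSS)
    {f : ℝ → ℝ} (hf : Continuous f) {C : ℝ} (hC : ∀ x, 0 ≤ x → |f x| ≤ C * (1 + x))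
    {ε : ℝ} (hε : 0 < ε) :
    ∃ (F : Finset ℤ[X]) (δ : ℝ), 0 < δ ∧ (∀ Q ∈ F, Adm Q) ∧
      ∀ (B : ℝ) (ν : Measure ℝ), On B ν → (∀ Q ∈ F, LogNonneg ν Q) → mean ν ≤ lamSSS + δ →
        |∫ x, f x ∂ν - ∫ x, f x ∂μ| ≤ ε := by
  classical
  obtain ⟨S, δK, hδK, hSA, hS⟩ := key (by norm_num) (hμ.mono (by norm_num : (1000 : ℝ) ≤ 2000)) hA hm
    hf (half_pos hε)
  have hC0 : 0 ≤ C := by
    have := hC 0 le_rfl
    have h2 := abs_nonneg (f 0)
    linarith
  set W : ℝ := ∑ s ∈ S, ((s.2 : ℝ) + 2 * wt s.1) + 1 with hW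
  have hterm : ∀ s ∈ S, 0 ≤ (s.2 : ℝ) + 2 * wt s.1 := by
    intro s hs
    have := (hSA s hs).one_le_wt
    positivity
  have hW1 : 1 ≤ W := by
    have := Finset.sum_nonneg hterm
    linarith
  have hτ : 0 < min (δK / W) (ε / (8 * C + 1)) := lt_min (by positivity) (by positivity)
  obtain ⟨F1, δ1, hδ1, hF1, hT⟩ := tail hτ
  refine ⟨F1 ∪ S.image Prod.fst, min δK δ1, lt_min hδK hδ1, ?_, ?_⟩
  · intro Q hQ
    rcases Finset.mem_union.1 hQ with h | h
    · exact hF1 Q h
    · obtain ⟨s, hs, rfl⟩ := Finset.mem_image.1 h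
      exact hSA s hs
  · intro B ν hν hL hmν
    have := hν.1
    have hL1 : ∀ Q ∈ F1, LogNonneg ν Q := fun Q hQ => hL Q (Finset.mem_union_left _ hQ)
    have hL2 : ∀ s ∈ S, LogNonneg ν s.1 := fun s hs =>
      hL s.1 (Finset.mem_union_right _ (Finset.mem_image_of_mem _ hs))
    have hTν := hT B ν hν hL1 (hmν.trans (by linarith [min_le_right δK δ1]))
    set T := ∫ x in Set.Ioi (2000 : ℝ), x ∂ν with hTdef
    have hT0 : 0 ≤ T := by
      rw [hTdef]
      refine setIntegral_nonneg measurableSet_Ioi fun x hx => ?_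
      have : (2000 : ℝ) < x := hx
      linarith
    have hT1 : T ≤ δK / W := hTν.trans (min_le_left _ _)
    have hT2 : T ≤ ε / (8 * C + 1) := hTν.trans (min_le_right _ _)
    have hclip : Continuous (fun x : ℝ => min x 2000) := continuous_id.min continuous_const
    have hon := on_clip hν
    -- the conditions for the clipped measure
    have hA1 : ∀ s ∈ S, -δK ≤ ∫ x, trunc s.1 s.2 x ∂(ν.map (fun x => min x 2000)) := by
      intro s hs
      rw [integral_clip (continuous_trunc _ _)]
      have hw := (hSA s hs).one_le_wt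
      have hi1 : Integrable (fun x => trunc s.1 s.2 (min x 2000)) ν :=
        integrable_cont hν ((continuous_trunc _ _).comp hclip)
      have hi2 := (hL2 s hs).2.1
      have hnz : ∀ᵐ x ∂ν, ev s.1 x ≠ 0 := by
        rw [ae_iff]
        simpa using (hL2 s hs).1
      have h1 := small hν (hi1.sub hi2) (K := (s.2 : ℝ) + 2 * wt s.1) (by
          filter_upwards [hnz] with x hx h
          have h2 := log_le_trunc s.1 s.2 x hx
          simp only [Pi.sub_apply]
          rw [min_eq_left h]
          linarith) (by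
          filter_upwards [hnz] with x hx h
          have hx0 : 0 ≤ x := by linarith
          have h2 := trunc_ge s.1 s.2 (min x 2000)
          have h3 := log_ev_le (hSA s hs) hx0 hx
          have h4 : Real.log (1 + x) ≤ x := by
            have := Real.log_le_sub_one_of_pos (show 0 < 1 + x by linarith)
            linarith
          have h5 : wt s.1 * (1 + Real.log (1 + x)) ≤ wt s.1 * (2 * x) :=
            mul_le_mul_of_nonneg_left (by linarith) (by linarith)
          have h6 : (s.2 : ℝ) * 1 ≤ (s.2 : ℝ) * x :=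
            mul_le_mul_of_nonneg_left (by linarith) (Nat.cast_nonneg _)
          simp only [Pi.sub_apply]
          nlinarith)
      have h2 : ∫ x, ((fun x => trunc s.1 s.2 (min x 2000)) - (fun x => Real.log |ev s.1 x|)) x ∂ν =
          ∫ x, trunc s.1 s.2 (min x 2000) ∂ν - ∫ x, Real.log |ev s.1 x| ∂ν :=
        integral_sub hi1 hi2
      rw [h2] at h1
      have h3 := (hL2 s hs).2.2
      have h4 : (s.2 : ℝ) + 2 * wt s.1 ≤ W := by
        have := Finset.single_le_sum hterm hs
        linarith
      have h5 : ((s.2 : ℝ) + 2 * wt s.1) * T ≤ W * (δK / W) :=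
        mul_le_mul h4 hT1 hT0 (by linarith)
      have h6 : W * (δK / W) = δK := by
        field_simp
      linarith
    have hA2 : mean (ν.map (fun x => min x 2000)) ≤ lamSSS + δK := by
      have e : mean (ν.map (fun x => min x 2000)) = ∫ x, min x 2000 ∂ν :=
        integral_clip (g := fun x => x) continuous_id
      rw [e]
      have h1 : ∫ x, min x 2000 ∂ν ≤ ∫ x, x ∂ν :=
        integral_mono (integrable_cont hν hclip) (integrable_x hν) fun x => min_le_left _ _
      have h2 : mean ν = ∫ x, x ∂ν := rfl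
      linarith [min_le_left δK δ1]
    have h1 := hS _ hon hA1 hA2
    rw [integral_clip hf] at h1
    have hi1 : Integrable (fun x => f (min x 2000)) ν := integrable_cont hν (hf.comp hclip)
    have hi2 : Integrable f ν := integrable_cont hν hf
    have hbd : ∀ x : ℝ, 2000 < x → |f (min x 2000)| + |f x| ≤ 4 * C * x := by
      intro x hx
      have h1 := hC 2000 (by norm_num)
      have h2 := hC x (by linarith)
      rw [min_eq_right hx.le]
      nlinarith
    have a1 := small hν (hi1.sub hi2) (K := 4 * C) (by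
      filter_upwards with x h
      simp only [Pi.sub_apply]
      rw [min_eq_left h, sub_self]) (by
      filter_upwards with x h
      have h2 := hbd x h
      simp only [Pi.sub_apply]
      have h3 := neg_abs_le (f (min x 2000))
      have h4 := le_abs_self (f x)
      linarith)
    have a2 := small hν (hi2.sub hi1) (K := 4 * C) (by
      filter_upwards with x h
      simp only [Pi.sub_apply]
      rw [min_eq_left h, sub_self]) (by
      filter_upwards with x h
      have h2 := hbd x h
      simp only [Pi.sub_apply]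
      have h3 := neg_abs_le (f x)
      have h4 := le_abs_self (f (min x 2000))
      linarith)
    have e1 : ∫ x, ((fun x => f (min x 2000)) - f) x ∂ν = ∫ x, f (min x 2000) ∂ν - ∫ x, f x ∂ν :=
      integral_sub hi1 hi2
    have e2 : ∫ x, (f - (fun x => f (min x 2000))) x ∂ν = ∫ x, f x ∂ν - ∫ x, f (min x 2000) ∂ν :=
      integral_sub hi2 hi1
    rw [e1, ← hTdef] at a1
    rw [e2, ← hTdef] at a2
    have h4 : 4 * C * T ≤ ε / 2 := by
      have h5 : 4 * C * T ≤ 4 * C * (ε / (8 * C + 1)) := mul_le_mul_of_nonneg_left hT2 (by linarith)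
      have h6 : 4 * C * (ε / (8 * C + 1)) ≤ ε / 2 := by
        rw [mul_div_assoc', div_le_div_iff₀ (by linarith) (by norm_num)]
        nlinarith
      linarith
    rw [abs_le] at h1 ⊢
    constructor <;> linarith [h1.1, h1.2]

end Pool.Agent.Y94.EQ
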